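import Mathlib
import Pool.Agent.MP1bdb59.Stmt

/-!
# The Jacobian of a superelliptic curve `y^ℓ = f(x)`: Galois cohomology, Tate-Shafarevich group
-/

open Polynomial

noncomputable section

namespace Pool.Agent.SJac

open Pool.Agent.MP1bdb59 (Sep AbsGal emb resGal emb_resGal Place Completion)

universe u v

section Ring

/-- The polynomial `y^ℓ - g(x)` in `A[x][y]`. -/
def curvePoly (ℓ : ℕ) {A : Type u} [CommRing A] (g : A[X]) : A[X][X] := X ^ ℓ - C g

/-- The affine coordinate ring `A[x,y]/(y^ℓ - g(x))` of the curve `y^ℓ = g(x)` over `A`. -/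
def CurveRing (ℓ : ℕ) {A : Type u} [CommRing A] (g : A[X]) : Type u := AdjoinRoot (curvePoly ℓ g)

instance instCommRing (ℓ : ℕ) {A : Type u} [CommRing A] (g : A[X]) : CommRing (CurveRing ℓ g) :=
  (inferInstance : CommRing (AdjoinRoot (curvePoly ℓ g)))

theorem curveMap_dvd (ℓ : ℕ) {A : Type u} [CommRing A] {A' : Type v} [CommRing A'] (φ : A →+* A')
    {g : A[X]} {g' : A'[X]} (h : g.map φ = g') :
    curvePoly ℓ g' ∣ (curvePoly ℓ g).map (mapRingHom φ) := by
  unfold curvePoly
  rw [← h, Polynomial.map_sub, Polynomial.map_pow, map_X, map_C, coe_mapRingHom]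

/-- The ring homomorphism `A[x,y]/(y^ℓ - g) → A'[x,y]/(y^ℓ - g')` induced by a homomorphism
`φ : A → A'` that takes the coefficients of `g` to those of `g'`. -/
def curveMap (ℓ : ℕ) {A : Type u} [CommRing A] {A' : Type v} [CommRing A'] (φ : A →+* A')
    {g : A[X]} {g' : A'[X]} (h : g.map φ = g') : CurveRing ℓ g →+* CurveRing ℓ g' :=
  AdjoinRoot.map (mapRingHom φ) (curvePoly ℓ g) (curvePoly ℓ g') (curveMap_dvd ℓ φ h)

/-- The Picard group of a commutative ring, written additively. -/
def PicAdd (R : Type u) [CommRing R] : Type u := Additive (CommRing.Pic R)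

instance instAddCommGroupPic (R : Type u) [CommRing R] : AddCommGroup (PicAdd R) :=
  (inferInstance : AddCommGroup (Additive (CommRing.Pic R)))

/-- The homomorphism of Picard groups (extension of scalars) given by a ring homomorphism. -/
def picAddMap {R : Type u} [CommRing R] {S : Type v} [CommRing S] (ψ : R →+* S) :
    PicAdd R →+ PicAdd S :=
  (CommRing.Pic.mapRingHom ψ).toAdditive

/-- The Picard group of the affine coordinate ring, written additively. -/
def CurvePic (ℓ : ℕ) {A : Type u} [CommRing A] (g : A[X]) : Type u := PicAdd (CurveRing ℓ g)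

instance instAddCommGroupCurvePic (ℓ : ℕ) {A : Type u} [CommRing A] (g : A[X]) :
    AddCommGroup (CurvePic ℓ g) :=
  (inferInstance : AddCommGroup (PicAdd (CurveRing ℓ g)))

/-- The homomorphism of Picard groups induced by a homomorphism `φ` of coefficient rings. -/
def picMap (ℓ : ℕ) {A : Type u} {A' : Type v} [CommRing A] [CommRing A'] (φ : A →+* A') {g : A[X]}
    {g' : A'[X]} (h : g.map φ = g') : CurvePic ℓ g →+ CurvePic ℓ g' :=
  picAddMap (curveMap ℓ φ h)

end Ring

section Jacobian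

variable (ℓ : ℕ) {K : Type u} [Field K] (f : K[X]) (F : Type v) [Field F] [Algebra K F]

/-- The group `J(F^s)` of points over the separable closure `F^s` of `F` of the Jacobian `J` of
the smooth projective curve over `K` with affine equation `y^ℓ = f(x)`, where `f` is a separable
polynomial of degree prime to `ℓ`, `ℓ ≠ char K`. This affine curve is smooth and the curve has
exactly one more point (at infinity), which is rational; so `J(F^s)` is the Picard group of the
affine coordinate ring `F^s[x,y]/(y^ℓ - f(x))`. -/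
def Jac : Type v := CurvePic ℓ (f.map (algebraMap K (Sep F)))

instance instAddCommGroupJac : AddCommGroup (Jac ℓ f F) :=
  (inferInstance : AddCommGroup (CurvePic ℓ (f.map (algebraMap K (Sep F)))))

variable {F} in
theorem map_sigma (σ : AbsGal F) :
    (f.map (algebraMap K (Sep F))).map (σ : Sep F →+* Sep F) = f.map (algebraMap K (Sep F)) := by
  rw [Polynomial.map_map]
  congr 1
  rw [IsScalarTower.algebraMap_eq K F (Sep F), ← RingHom.comp_assoc]
  congr 1
  exact RingHom.ext fun x => σ.commutes x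

/-- The action of `Gal(F^s/F)` on `J(F^s)`. -/
def act (σ : AbsGal F) : Jac ℓ f F →+ Jac ℓ f F :=
  picMap ℓ (σ : Sep F →+* Sep F) (map_sigma f σ)

/-- A function `c : Gal(F^s/F) → J(F^s)` is a continuous (i.e. locally constant) 1-cocycle. -/
def IsCocycle (c : AbsGal F → Jac ℓ f F) : Prop :=
  IsLocallyConstant c ∧ ∀ σ τ : AbsGal F, c (σ * τ) = c σ + act ℓ f F σ (c τ)

/-- The group of 1-coboundaries `σ ↦ σ P - P`, `P` in `J(F^s)`. -/
def Coboundaries : AddSubgroup (AbsGal F → Jac ℓ f F) where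
  carrier := {c | ∃ P : Jac ℓ f F, ∀ σ : AbsGal F, c σ = act ℓ f F σ P - P}
  zero_mem' := ⟨0, fun g => by simp⟩
  add_mem' := by
    rintro x y ⟨P, hP⟩ ⟨Q, hQ⟩
    refine ⟨P + Q, fun g => ?_⟩
    simp only [Pi.add_apply, hP, hQ, map_add]
    abel
  neg_mem' := by
    rintro x ⟨P, hP⟩
    refine ⟨-P, fun g => ?_⟩
    simp only [Pi.neg_apply, hP, map_neg]
    abel

/-- The group of all functions `Gal(F^s/F) → J(F^s)` modulo the coboundaries. It contains
`H^1(F, J)`. -/
def FunMod : Type v := (AbsGal F → Jac ℓ f F) ⧸ Coboundaries ℓ f F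

instance instGroupFunMod : AddCommGroup (FunMod ℓ f F) :=
  (inferInstance : AddCommGroup ((AbsGal F → Jac ℓ f F) ⧸ Coboundaries ℓ f F))

/-- The class of a function. -/
def cls (c : AbsGal F → Jac ℓ f F) : FunMod ℓ f F := QuotientAddGroup.mk c

lemma cls_add (c c' : AbsGal F → Jac ℓ f F) :
    cls ℓ f F (c + c') = cls ℓ f F c + cls ℓ f F c' := rfl

lemma cls_eq_zero_iff (c : AbsGal F → Jac ℓ f F) : cls ℓ f F c = 0 ↔
    ∃ P : Jac ℓ f F, ∀ σ : AbsGal F, c σ = act ℓ f F σ P - P :=
  QuotientAddGroup.eq_zero_iff c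

/-- The Galois cohomology group `H^1(F, J)`: the classes of cocycles modulo the coboundaries. -/
def H1 : AddSubgroup (FunMod ℓ f F) where
  carrier := {ξ | ∃ c : AbsGal F → Jac ℓ f F, IsCocycle ℓ f F c ∧ cls ℓ f F c = ξ}
  zero_mem' := ⟨0, ⟨IsLocallyConstant.const 0, fun g h => by simp⟩, rfl⟩
  add_mem' := by
    rintro _ _ ⟨x, ⟨hx, hx'⟩, rfl⟩ ⟨y, ⟨hy, hy'⟩, rfl⟩
    refine ⟨x + y, ⟨hx.add hy, fun g h => ?_⟩, rfl⟩
    simp only [Pi.add_apply, hx', hy', map_add]
    abel
  neg_mem' := by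
    rintro _ ⟨x, ⟨hx, hx'⟩, rfl⟩
    refine ⟨-x, ⟨hx.neg, fun g h => ?_⟩, rfl⟩
    simp only [Pi.neg_apply, hx', map_neg]
    abel

end Jacobian

section Restriction

variable (ℓ : ℕ) {K : Type u} [Field K] (f : K[X]) (F : Type v) [Field F] [Algebra K F]

theorem map_emb : (f.map (algebraMap K (Sep K))).map (emb K F : Sep K →+* Sep F) =
    f.map (algebraMap K (Sep F)) := by
  rw [Polynomial.map_map]
  congr 1
  exact RingHom.ext fun x => (emb K F).commutes x

/-- The map `J(K^s) → J(F^s)` induced by the embedding `emb`. -/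
def embJac : Jac ℓ f K →+ Jac ℓ f F := picMap ℓ (emb K F : Sep K →+* Sep F) (map_emb f F)

theorem curveMap_of {A A' : Type*} [CommRing A] [CommRing A'] (φ : A →+* A') {g : A[X]}
    {g' : A'[X]} (h : g.map φ = g') (p : A[X]) :
    curveMap ℓ φ h (AdjoinRoot.of (curvePoly ℓ g) p) =
      AdjoinRoot.of (curvePoly ℓ g') (p.map φ) := by
  unfold curveMap AdjoinRoot.map
  exact AdjoinRoot.lift_of _

theorem curveMap_root {A A' : Type*} [CommRing A] [CommRing A'] (φ : A →+* A') {g : A[X]}
    {g' : A'[X]} (h : g.map φ = g') :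
    curveMap ℓ φ h (AdjoinRoot.root (curvePoly ℓ g)) = AdjoinRoot.root (curvePoly ℓ g') := by
  unfold curveMap AdjoinRoot.map
  exact AdjoinRoot.lift_root _

theorem curveMap_comp {A A' A'' : Type*} [CommRing A] [CommRing A'] [CommRing A'']
    (φ : A →+* A') (φ' : A' →+* A'') {g : A[X]} {g' : A'[X]} {g'' : A''[X]}
    (h : g.map φ = g') (h' : g'.map φ' = g'') (h'' : g.map (φ'.comp φ) = g'') :
    (curveMap ℓ φ' h').comp (curveMap ℓ φ h) = curveMap ℓ (φ'.comp φ) h'' := by
  apply AdjoinRoot.ringHom_ext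
  · apply RingHom.ext
    intro p
    change curveMap ℓ φ' h' (curveMap ℓ φ h (AdjoinRoot.of (curvePoly ℓ g) p)) =
      curveMap ℓ (φ'.comp φ) h'' (AdjoinRoot.of (curvePoly ℓ g) p)
    rw [curveMap_of, curveMap_of, curveMap_of, Polynomial.map_map]
  · change curveMap ℓ φ' h' (curveMap ℓ φ h (AdjoinRoot.root (curvePoly ℓ g))) =
      curveMap ℓ (φ'.comp φ) h'' (AdjoinRoot.root (curvePoly ℓ g))
    rw [curveMap_root, curveMap_root, curveMap_root]

variable {f} in
theorem picMap_picMap {A A' A'' : Type*} [CommRing A] [CommRing A'] [CommRing A'']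
    (φ : A →+* A') (φ' : A' →+* A'') {g : A[X]} {g' : A'[X]} {g'' : A''[X]}
    (h : g.map φ = g') (h' : g'.map φ' = g'') (ψ : A →+* A'') (hψ : φ'.comp φ = ψ)
    (h'' : g.map ψ = g'') (t : CurvePic ℓ g) :
    picMap ℓ φ' h' (picMap ℓ φ h t) = picMap ℓ ψ h'' t := by
  subst hψ
  have h1 := CommRing.Pic.mapRingHom_mapRingHom (f := curveMap ℓ φ h) (g := curveMap ℓ φ' h')
    (M := Additive.toMul t)
  rw [curveMap_comp ℓ φ φ' h h' h''] at h1
  exact h1

theorem act_embJac (σ : AbsGal F) (P : Jac ℓ f K) :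
    act ℓ f F σ (embJac ℓ f F P) = embJac ℓ f F (act ℓ f K (resGal K F σ) P) := by
  have h : (σ : Sep F →+* Sep F).comp (emb K F : Sep K →+* Sep F) =
      (emb K F : Sep K →+* Sep F).comp (resGal K F σ : Sep K →+* Sep K) :=
    RingHom.ext fun x => (emb_resGal K F σ x).symm
  have h'' : (f.map (algebraMap K (Sep K))).map
      ((emb K F : Sep K →+* Sep F).comp (resGal K F σ : Sep K →+* Sep K)) =
      f.map (algebraMap K (Sep F)) := by
    rw [← Polynomial.map_map, map_sigma f (resGal K F σ), map_emb]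
  unfold act embJac
  have h1 := picMap_picMap ℓ _ _ (map_emb f F) (map_sigma f σ) _ h h'' P
  have h2 := picMap_picMap ℓ _ _ (map_sigma f (resGal K F σ)) (map_emb f F) _ rfl h'' P
  exact h1.trans h2.symm

theorem exists_res : ∃ r : FunMod ℓ f K →+ FunMod ℓ f F, ∀ c : AbsGal K → Jac ℓ f K,
    r (cls ℓ f K c) = cls ℓ f F (fun σ => embJac ℓ f F (c (resGal K F σ))) := by
  let j : (AbsGal K → Jac ℓ f K) →+ (AbsGal F → Jac ℓ f F) :=
    { toFun := fun c σ => embJac ℓ f F (c (resGal K F σ))
      map_zero' := by funext σ; simp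
      map_add' := fun a b => by funext σ; simp }
  refine ⟨QuotientAddGroup.map (Coboundaries ℓ f K) (Coboundaries ℓ f F) j ?_, fun c => rfl⟩
  rintro c ⟨P, hP⟩
  refine ⟨embJac ℓ f F P, fun σ => ?_⟩
  change embJac ℓ f F (c (resGal K F σ)) = _
  rw [hP, map_sub, act_embJac]

/-- The restriction (localisation) map `H^1(K, J) → H^1(F, J)`. -/
def res : FunMod ℓ f K →+ FunMod ℓ f F := (exists_res ℓ f F).choose

theorem res_cls (c : AbsGal K → Jac ℓ f K) :
    res ℓ f F (cls ℓ f K c) = cls ℓ f F (fun σ => embJac ℓ f F (c (resGal K F σ))) :=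
  (exists_res ℓ f F).choose_spec c

end Restriction

section Sha

variable (k : Type u) {K : Type v} [Field k] [Field K] [Algebra k K] (ℓ : ℕ) (f : K[X])

/-- The Tate-Shafarevich group: the classes in `H^1(K, J)` that become trivial in `H^1(K_v, J)`
for every place `v` of `K` trivial on `k`. -/
def Sha : AddSubgroup (FunMod ℓ f K) :=
  H1 ℓ f K ⊓ ⨅ v : Place k K, (res ℓ f (Completion v)).ker

end Sha

end Pool.Agent.SJac
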