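import Mathlib
import Pool.Agent.SJac.Stmt
import Pool.Agent.MP1bdb59C.Stmt

/-!
# Comparison of two forms of the definitions
-/

open Polynomial

noncomputable section

namespace Pool.Agent.SJac

open Pool.Agent.MP1bdb59 (Sep AbsGal emb resGal emb_resGal Place Completion)

universe u v

section

/-- The identity. -/
def toOldPic (ℓ : ℕ) {A : Type u} [CommRing A] (g : A[X]) :
    CurvePic ℓ g ≃+ Additive (CommRing.Pic (MP1bdb59C.CoordRing ℓ g)) where
  toFun t := t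
  invFun t := t
  left_inv _ := rfl
  right_inv _ := rfl
  map_add' _ _ := rfl

lemma curveMap_eq (ℓ : ℕ) {A : Type u} {A' : Type v} [CommRing A] [CommRing A'] (φ : A →+* A')
    {g : A[X]} {g' : A'[X]} (h : g.map φ = g') :
    curveMap ℓ φ h = MP1bdb59C.coordMap ℓ φ h := rfl

lemma toOldPic_picMap (ℓ : ℕ) {A : Type u} {A' : Type v} [CommRing A] [CommRing A'] (φ : A →+* A')
    {g : A[X]} {g' : A'[X]} (h : g.map φ = g') (t : CurvePic ℓ g) :
    toOldPic ℓ g' (picMap ℓ φ h t) = MP1bdb59C.picMap ℓ φ h (toOldPic ℓ g t) := rfl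

end

variable (ℓ : ℕ) {K : Type u} [Field K] (f : K[X]) (F : Type v) [Field F] [Algebra K F]

/-- The identity. -/
def toOld : Jac ℓ f F ≃+ MP1bdb59C.Jac ℓ f F := toOldPic ℓ (f.map (algebraMap K (Sep F)))

lemma toOld_act (σ : AbsGal F) (t : Jac ℓ f F) :
    toOld ℓ f F (act ℓ f F σ t) = MP1bdb59C.act ℓ f F σ (toOld ℓ f F t) :=
  toOldPic_picMap ℓ _ _ t

lemma toOld_embJac (t : Jac ℓ f K) :
    toOld ℓ f F (embJac ℓ f F t) = MP1bdb59C.embJac ℓ f F (toOld ℓ f K t) :=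
  toOldPic_picMap ℓ _ _ t

lemma isCocycle_iff (c : AbsGal F → Jac ℓ f F) :
    IsCocycle ℓ f F c ↔ MP1bdb59C.IsCocycle ℓ f F (fun σ => toOld ℓ f F (c σ)) := by
  constructor
  · rintro ⟨h1, h2⟩
    refine ⟨h1.comp _, fun σ τ => ?_⟩
    change toOld ℓ f F (c (σ * τ)) = _
    rw [h2, map_add, toOld_act]
  · rintro ⟨h1, h2⟩
    refine ⟨?_, fun σ τ => ?_⟩
    · have h3 := h1.comp (toOld ℓ f F).symm
      have h4 : (toOld ℓ f F).symm ∘ (fun σ => toOld ℓ f F (c σ)) = c := by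
        funext σ
        exact (toOld ℓ f F).symm_apply_apply _
      rwa [h4] at h3
    · apply (toOld ℓ f F).injective
      rw [map_add, toOld_act]
      exact h2 σ τ

lemma cls_eq_zero_iff' (c : AbsGal F → Jac ℓ f F) :
    cls ℓ f F c = 0 ↔ MP1bdb59C.cls ℓ f F (fun σ => toOld ℓ f F (c σ)) = 0 := by
  rw [cls_eq_zero_iff, MP1bdb59C.cls_eq_zero_iff]
  constructor
  · rintro ⟨P, hP⟩
    refine ⟨toOld ℓ f F P, fun σ => ?_⟩
    rw [hP, map_sub, toOld_act]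
  · rintro ⟨P, hP⟩
    refine ⟨(toOld ℓ f F).symm P, fun σ => ?_⟩
    apply (toOld ℓ f F).injective
    rw [hP, map_sub, toOld_act, AddEquiv.apply_symm_apply]

lemma nsmul_cls (n : ℕ) (c : AbsGal F → Jac ℓ f F) :
    n • cls ℓ f F c = cls ℓ f F (fun σ => n • c σ) := by
  induction n with
  | zero =>
    rw [zero_nsmul]
    have : (fun σ => 0 • c σ) = (0 : AbsGal F → Jac ℓ f F) := by
      funext σ
      rw [zero_nsmul]
      rfl
    rw [this]
    rfl
  | succ n ih =>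
    rw [succ_nsmul, ih, ← cls_add]
    congr 1
    funext σ
    rw [Pi.add_apply, succ_nsmul]

lemma nsmul_cls_old (n : ℕ) (c : AbsGal F → MP1bdb59C.Jac ℓ f F) :
    n • MP1bdb59C.cls ℓ f F c = MP1bdb59C.cls ℓ f F (fun σ => n • c σ) := by
  induction n with
  | zero =>
    rw [zero_nsmul]
    have : (fun σ => 0 • c σ) = (0 : AbsGal F → MP1bdb59C.Jac ℓ f F) := by
      funext σ
      rw [zero_nsmul]
      rfl
    rw [this]
    rfl
  | succ n ih =>
    rw [succ_nsmul, ih, ← MP1bdb59C.cls_add]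
    congr 1
    funext σ
    rw [Pi.add_apply, succ_nsmul]

/-- Transfer of the conclusions. -/
theorem transfer (k : Type u) {K : Type v} [Field k] [Field K] [Algebra k K] (ℓ n : ℕ) (f : K[X])
    (h1 : ∀ ξ ∈ MP1bdb59C.Sha k ℓ f, n • ξ = 0 → ξ = 0) : ∀ ξ ∈ Sha k ℓ f, n • ξ = 0 → ξ = 0 := by
  rintro ξ ⟨⟨c, hc, rfl⟩, hloc⟩ hn
  rw [cls_eq_zero_iff']
  apply h1
  · refine ⟨⟨_, (isCocycle_iff ℓ f K c).mp hc, rfl⟩, ?_⟩
    refine AddSubgroup.mem_iInf.mpr fun v => ?_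
    have h2 : cls ℓ f (Completion v) (fun σ => embJac ℓ f (Completion v)
        (c (resGal K (Completion v) σ))) = 0 := by
      rw [← res_cls]
      exact AddSubgroup.mem_iInf.mp hloc v
    rw [cls_eq_zero_iff'] at h2
    change MP1bdb59C.res ℓ f (Completion v) _ = 0
    rw [MP1bdb59C.res_cls, ← h2]
    congr 1
  · rw [nsmul_cls, cls_eq_zero_iff'] at hn
    rw [nsmul_cls_old, ← hn]
    congr 1

theorem transfer_div {K : Type v} [Field K] (ℓ n : ℕ) (f : K[X])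
    (h2 : ∀ t : MP1bdb59C.Jac ℓ f K, (∀ σ, MP1bdb59C.act ℓ f K σ t = t) →
      ∃ s : MP1bdb59C.Jac ℓ f K, (∀ σ, MP1bdb59C.act ℓ f K σ s = s) ∧ n • s = t) :
    ∀ t : Jac ℓ f K, (∀ σ, act ℓ f K σ t = t) →
      ∃ s : Jac ℓ f K, (∀ σ, act ℓ f K σ s = s) ∧ n • s = t := by
  intro t ht
  obtain ⟨s, hs, hst⟩ := h2 (toOld ℓ f K t) (fun σ => by rw [← toOld_act, ht])
  refine ⟨(toOld ℓ f K).symm s, fun σ => ?_, ?_⟩
  · apply (toOld ℓ f K).injective
    rw [toOld_act, AddEquiv.apply_symm_apply, hs]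
  · apply (toOld ℓ f K).injective
    rw [map_nsmul, AddEquiv.apply_symm_apply, hst]

end Pool.Agent.SJac
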